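import Mathlib

set_option autoImplicit false
open Complex Set Filter Topology MeasureTheory Polynomial

namespace Pool.Agent.Results.MP_090e3f_an.FiniteOrder

/-- the polynomial `∑_{j ≤ d} a j x * Y ^ j` -/
noncomputable def pol (a : ℕ → ℂ → ℂ) (d : ℕ) (x : ℂ) : ℂ[X] :=
  ∑ j ∈ Finset.range (d + 1), C (a j x) * X ^ j

lemma pol_coeff (a : ℕ → ℂ → ℂ) (d : ℕ) (x : ℂ) (i : ℕ) :
    (pol a d x).coeff i = if i < d + 1 then a i x else 0 := by
  simp [pol, Polynomial.finsetSum_coeff, Polynomial.coeff_C_mul, Polynomial.coeff_X_pow]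

lemma pol_eval (a : ℕ → ℂ → ℂ) (d : ℕ) (x y : ℂ) :
    (pol a d x).eval y = ∑ j ∈ Finset.range (d + 1), a j x * y ^ j := by
  simp [pol, Polynomial.eval_finsetSum]

lemma pol_natDegree_le (a : ℕ → ℂ → ℂ) (d : ℕ) (x : ℂ) : (pol a d x).natDegree ≤ d := by
  rw [Polynomial.natDegree_le_iff_coeff_eq_zero]
  intro N hN
  rw [pol_coeff, if_neg (by omega)]

lemma pol_natDegree {a : ℕ → ℂ → ℂ} {d : ℕ} {x : ℂ} (hx : a d x ≠ 0) :
    (pol a d x).natDegree = d := by
  apply le_antisymm (pol_natDegree_le a d x)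
  apply Polynomial.le_natDegree_of_ne_zero
  rw [pol_coeff, if_pos (by omega)]
  exact hx

lemma pol_leadingCoeff {a : ℕ → ℂ → ℂ} {d : ℕ} {x : ℂ} (hx : a d x ≠ 0) :
    (pol a d x).leadingCoeff = a d x := by
  rw [Polynomial.leadingCoeff, pol_natDegree hx, pol_coeff, if_pos (by omega)]

lemma pol_ne_zero {a : ℕ → ℂ → ℂ} {d : ℕ} {x : ℂ} (hx : a d x ≠ 0) : pol a d x ≠ 0 := by
  intro h
  apply hx
  rw [← pol_leadingCoeff hx, h]; simp

lemma card_roots_pol {a : ℕ → ℂ → ℂ} {d : ℕ} {x : ℂ} (hx : a d x ≠ 0) :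
    Multiset.card (pol a d x).roots = d := by
  have := IsAlgClosed.splits (pol a d x)
  rw [← this.natDegree_eq_card_roots, pol_natDegree hx]

lemma differentiable_resultant {a b : ℕ → ℂ → ℂ} (ha : ∀ j, Differentiable ℂ (a j))
    (hb : ∀ j, Differentiable ℂ (b j)) (d N : ℕ) :
    Differentiable ℂ (fun x => Polynomial.resultant (pol a d x) (pol b N x) d N) := by
  have hpc : ∀ (a : ℕ → ℂ → ℂ) (_ : ∀ j, Differentiable ℂ (a j)) (d i : ℕ),
      Differentiable ℂ (fun x => (pol a d x).coeff i) := by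
    intro a ha d i
    simp only [pol_coeff]
    split_ifs
    · exact ha i
    · exact differentiable_const 0
  have hent : ∀ i j, Differentiable ℂ (fun x => Polynomial.sylvester (pol a d x) (pol b N x) d N i j) := by
    intro i j
    induction j using Fin.addCases with
    | left j =>
      simp only [Polynomial.sylvester, Matrix.of_apply, Fin.addCases_left]
      split_ifs
      · exact hpc b hb N _
      · exact differentiable_const 0
    | right j =>
      simp only [Polynomial.sylvester, Matrix.of_apply, Fin.addCases_right]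
      split_ifs
      · exact hpc a ha d _
      · exact differentiable_const 0
  simp only [Polynomial.resultant, Matrix.det_apply]
  refine Differentiable.fun_sum fun σ _ => ?_
  refine Differentiable.const_smul ?_ _
  exact Differentiable.fun_finsetProd fun i _ => hent _ _

/-- product of `K (x, y)` over the roots `y` of `pol a d x`. -/
noncomputable def prodK (a : ℕ → ℂ → ℂ) (d : ℕ) (K : ℂ × ℂ → ℂ) (x : ℂ) : ℂ :=
  ((pol a d x).roots.map (fun y => K (x, y))).prod

lemma differentiableOn_prod_pol {a b : ℕ → ℂ → ℂ} (ha : ∀ j, Differentiable ℂ (a j))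
    (hb : ∀ j, Differentiable ℂ (b j)) (d N : ℕ) :
    DifferentiableOn ℂ (prodK a d (fun p => ∑ j ∈ Finset.range (N + 1), b j p.1 * p.2 ^ j))
      {x | a d x ≠ 0} := by
  have h : ∀ x ∈ {x | a d x ≠ 0}, prodK a d (fun p => ∑ j ∈ Finset.range (N + 1), b j p.1 * p.2 ^ j) x
      = (a d x ^ N)⁻¹ * Polynomial.resultant (pol a d x) (pol b N x) d N := by
    intro x hx
    have h1 := Polynomial.resultant_eq_prod_eval (pol a d x) (pol b N x) N (pol_natDegree_le b N x)
      (IsAlgClosed.splits _)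
    rw [pol_natDegree hx, pol_leadingCoeff hx] at h1
    rw [h1, ← mul_assoc, inv_mul_cancel₀ (pow_ne_zero _ hx), one_mul, prodK]
    congr 1
    apply Multiset.map_congr rfl
    intro y _
    rw [pol_eval]
  refine DifferentiableOn.congr ?_ h
  intro x hx
  have h1 : DifferentiableAt ℂ (fun x => a d x ^ N) x := ((ha d) x).pow N
  exact ((h1.inv (pow_ne_zero _ hx)).mul
    ((differentiable_resultant ha hb d N) x)).differentiableWithinAt

lemma multiset_prod_diff {B ε : ℝ} (hB : 1 ≤ B) (hε : 0 ≤ ε) (f g : ℂ → ℂ) (s : Multiset ℂ)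
    (hf : ∀ y ∈ s, ‖f y‖ ≤ B) (hg : ∀ y ∈ s, ‖g y‖ ≤ B) (hfg : ∀ y ∈ s, ‖f y - g y‖ ≤ ε) :
    ‖(s.map f).prod‖ ≤ B ^ (Multiset.card s) ∧ ‖(s.map g).prod‖ ≤ B ^ (Multiset.card s) ∧
    ‖(s.map f).prod - (s.map g).prod‖ ≤ (Multiset.card s) * B ^ (Multiset.card s) * ε := by
  induction s using Multiset.induction with
  | empty => simp
  | cons y s ih =>
    obtain ⟨h1, h2, h3⟩ := ih (fun z hz => hf z (Multiset.mem_cons_of_mem hz))
      (fun z hz => hg z (Multiset.mem_cons_of_mem hz))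
      (fun z hz => hfg z (Multiset.mem_cons_of_mem hz))
    have f0 := hf y (Multiset.mem_cons_self y s)
    have g0 := hg y (Multiset.mem_cons_self y s)
    have fg0 := hfg y (Multiset.mem_cons_self y s)
    have hB0 : 0 ≤ B := by linarith
    simp only [Multiset.map_cons, Multiset.prod_cons, Multiset.card_cons]
    refine ⟨?_, ?_, ?_⟩
    · rw [norm_mul, pow_succ, mul_comm]; gcongr
    · rw [norm_mul, pow_succ, mul_comm]; gcongr
    · have e : f y * (s.map f).prod - g y * (s.map g).prod =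
          f y * ((s.map f).prod - (s.map g).prod) + (f y - g y) * (s.map g).prod := by ring
      rw [e]
      calc ‖f y * ((s.map f).prod - (s.map g).prod) + (f y - g y) * (s.map g).prod‖
          ≤ ‖f y‖ * ‖(s.map f).prod - (s.map g).prod‖ + ‖f y - g y‖ * ‖(s.map g).prod‖ := by
            rw [← norm_mul, ← norm_mul]; exact norm_add_le _ _
        _ ≤ B * ((Multiset.card s) * B ^ (Multiset.card s) * ε) + ε * B ^ (Multiset.card s) := by
            gcongr
        _ ≤ B * ((Multiset.card s) * B ^ (Multiset.card s) * ε) + ε * B ^ (Multiset.card s + 1) := by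
            gcongr
            · omega
        _ = ((Multiset.card s + 1 : ℕ) : ℝ) * B ^ (Multiset.card s + 1) * ε := by
            push_cast; ring


/-- `j`-th Taylor coefficient of `K (x, ·)` at `0`. -/
noncomputable def tc (K : ℂ × ℂ → ℂ) (j : ℕ) (x : ℂ) : ℂ :=
  (j.factorial : ℂ)⁻¹ * iteratedDeriv j (fun y => K (x, y)) 0

lemma slice_x {K : ℂ × ℂ → ℂ} (hK : Differentiable ℂ K) (y : ℂ) :
    Differentiable ℂ (fun x => K (x, y)) := by
  fun_prop

lemma slice_y {K : ℂ × ℂ → ℂ} (hK : Differentiable ℂ K) (x : ℂ) :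
    Differentiable ℂ (fun y => K (x, y)) := by
  fun_prop

lemma tc_bound {K : ℂ × ℂ → ℂ} (hK : Differentiable ℂ K) (j : ℕ) (x : ℂ) {R M : ℝ} (hR : 0 < R)
    (hM : ∀ y ∈ Metric.sphere (0 : ℂ) R, ‖K (x, y)‖ ≤ M) : ‖tc K j x‖ ≤ M / R ^ j := by
  have h := Complex.norm_iteratedDeriv_le_of_forall_mem_sphere_norm_le (f := fun y => K (x, y))
    j hR (slice_y hK x).diffContOnCl hM
  have hf : (0:ℝ) < (j.factorial : ℝ) := by exact_mod_cast j.factorial_pos
  rw [tc, norm_mul, norm_inv, Complex.norm_natCast]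
  calc (j.factorial : ℝ)⁻¹ * ‖iteratedDeriv j (fun y => K (x, y)) 0‖
      ≤ (j.factorial : ℝ)⁻¹ * (j.factorial * M / R ^ j) := by gcongr
    _ = M / R ^ j := by field_simp

lemma hasSum_tc {K : ℂ × ℂ → ℂ} (hK : Differentiable ℂ K) (x y : ℂ) :
    HasSum (fun j => tc K j x * y ^ j) (K (x, y)) := by
  have h := Complex.hasSum_taylorSeries_of_entire (slice_y hK x) 0 y
  have e : (fun n : ℕ => ((n.factorial : ℂ))⁻¹ • (y - 0) ^ n •
      iteratedDeriv n (fun y => K (x, y)) 0) = fun j => tc K j x * y ^ j := by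
    funext j
    simp only [tc, sub_zero, smul_eq_mul]
    ring
  rw [e] at h
  exact h

lemma uniform_tc {K : ℂ × ℂ → ℂ} (hK : Differentiable ℂ K) (x₀ : ℂ) (r R : ℝ) (hR : 0 < R) :
    TendstoUniformlyOn (fun N (p : ℂ × ℂ) => ∑ j ∈ Finset.range N, tc K j p.1 * p.2 ^ j) K atTop
      (Metric.closedBall x₀ r ×ˢ Metric.closedBall 0 R) := by
  obtain ⟨M, hM⟩ : ∃ M : ℝ, ∀ p ∈ (Metric.closedBall x₀ r) ×ˢ (Metric.closedBall (0 : ℂ) (2 * R)),
      ‖K p‖ ≤ M :=
    ((isCompact_closedBall x₀ r).prod (isCompact_closedBall (0:ℂ) (2 * R))).exists_bound_of_continuousOn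
      hK.continuous.continuousOn
  have hsum : Summable (fun j : ℕ => M * (1/2 : ℝ) ^ j) :=
    (summable_geometric_of_lt_one (by norm_num) (by norm_num)).mul_left M
  have h := tendstoUniformlyOn_tsum_nat (f := fun j (p : ℂ × ℂ) => tc K j p.1 * p.2 ^ j) hsum
    (s := Metric.closedBall x₀ r ×ˢ Metric.closedBall 0 R) (by
      rintro j ⟨x, y⟩ ⟨hx, hy⟩
      simp only at hx hy ⊢
      have h1 := tc_bound hK j x (R := 2 * R) (M := M) (by positivity) (fun z hz =>
        hM (x, z) ⟨hx, Metric.sphere_subset_closedBall hz⟩)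
      have h2 : ‖y‖ ≤ R := by simpa using hy
      rw [norm_mul, norm_pow]
      calc ‖tc K j x‖ * ‖y‖ ^ j ≤ (M / (2 * R) ^ j) * R ^ j := by
            gcongr
            exact (norm_nonneg _).trans h1
        _ = M * (1/2 : ℝ) ^ j := by
            rw [mul_pow, one_div, inv_pow]; field_simp)
  refine h.congr_right ?_
  rintro ⟨x, y⟩ _
  exact (hasSum_tc hK x y).tsum_eq


lemma differentiable_circle_param {K : ℂ × ℂ → ℂ} (hK : Differentiable ℂ K) (j : ℕ) :
    Differentiable ℂ (fun x => ∮ z in C(0, 1), (1 / (z - 0) ^ (j + 1)) • K (x, z)) := by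
  intro x₀
  have hKc : Continuous K := hK.continuous
  -- bound on a compact set
  obtain ⟨M, hM⟩ : ∃ M : ℝ, ∀ p ∈ (Metric.closedBall x₀ 2) ×ˢ (Metric.closedBall (0 : ℂ) 1),
      ‖K p‖ ≤ M :=
    ((isCompact_closedBall x₀ 2).prod (isCompact_closedBall (0:ℂ) 1)).exists_bound_of_continuousOn
      hKc.continuousOn
  have hM0 : 0 ≤ M := (norm_nonneg _).trans (hM (x₀, 0) (by simp))
  have hcm : ∀ t : ℝ, circleMap 0 1 t ∈ Metric.closedBall (0:ℂ) 1 := fun t =>
    circleMap_mem_closedBall 0 zero_le_one t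
  have hcn : ∀ t : ℝ, circleMap 0 1 t ≠ 0 := fun t => circleMap_ne_center one_ne_zero
  have hderiv : ∀ y ∈ Metric.closedBall (0:ℂ) 1, ∀ x ∈ Metric.ball x₀ 1,
      ‖deriv (fun x => K (x, y)) x‖ ≤ M := by
    intro y hy x hx
    have := Complex.norm_deriv_le_of_forall_mem_sphere_norm_le (c := x) (R := 1) (C := M)
      (f := fun x => K (x, y)) one_pos (slice_x hK y).diffContOnCl (by
        intro z hz
        apply hM
        refine ⟨?_, hy⟩
        rw [Metric.mem_closedBall]
        rw [mem_sphere_iff_norm] at hz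
        rw [mem_ball_iff_norm] at hx
        rw [dist_eq_norm]
        calc ‖z - x₀‖ = ‖(z - x) + (x - x₀)‖ := by ring_nf
          _ ≤ ‖z - x‖ + ‖x - x₀‖ := norm_add_le _ _
          _ ≤ 2 := by linarith)
    simpa using this
  have key := intervalIntegral.hasDerivAt_integral_of_dominated_loc_of_deriv_le
    (𝕜 := ℂ) (μ := volume) (a := 0) (b := 2 * Real.pi) (bound := fun _ => M)
    (F := fun x t => deriv (circleMap 0 1) t • ((1 / (circleMap 0 1 t - 0) ^ (j + 1)) • K (x, circleMap 0 1 t)))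
    (F' := fun x t => deriv (circleMap 0 1) t • ((1 / (circleMap 0 1 t - 0) ^ (j + 1)) •
      deriv (fun x => K (x, circleMap 0 1 t)) x))
    (x₀ := x₀) (s := Metric.ball x₀ 1) (Metric.ball_mem_nhds x₀ one_pos)
    ?_ ?_ ?_ ?_ ?_ ?_
  · exact key.2.differentiableAt
  · refine Eventually.of_forall fun x => ?_
    apply Continuous.aestronglyMeasurable
    simp only [deriv_circleMap, sub_zero]
    have h1 : Continuous (fun t : ℝ => circleMap 0 1 t) := continuous_circleMap 0 1
    have h2 : Continuous (fun t : ℝ => 1 / (circleMap 0 1 t) ^ (j + 1)) :=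
      Continuous.div continuous_const (h1.pow _) (fun t => pow_ne_zero _ (hcn t))
    fun_prop
  · apply Continuous.intervalIntegrable
    simp only [deriv_circleMap, sub_zero]
    have h1 : Continuous (fun t : ℝ => circleMap 0 1 t) := continuous_circleMap 0 1
    have h2 : Continuous (fun t : ℝ => 1 / (circleMap 0 1 t) ^ (j + 1)) :=
      Continuous.div continuous_const (h1.pow _) (fun t => pow_ne_zero _ (hcn t))
    fun_prop
  · apply Measurable.aestronglyMeasurable
    simp only [deriv_circleMap, sub_zero]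
    have h1 : Continuous (fun t : ℝ => circleMap 0 1 t) := continuous_circleMap 0 1
    have h2 : Continuous (fun t : ℝ => 1 / (circleMap 0 1 t) ^ (j + 1)) :=
      Continuous.div continuous_const (h1.pow _) (fun t => pow_ne_zero _ (hcn t))
    have h3 : (fun t : ℝ => deriv (fun x => K (x, circleMap 0 1 t)) x₀) =
        fun t : ℝ => (fderiv ℂ K (x₀, circleMap 0 1 t)) (1, 0) := by
      funext t
      have hd : HasDerivAt (fun x : ℂ => ((x, circleMap 0 1 t) : ℂ × ℂ)) (1, 0) x₀ :=
        (hasDerivAt_id x₀).prodMk (hasDerivAt_const x₀ _)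
      exact ((hK (x₀, circleMap 0 1 t)).hasFDerivAt.comp_hasDerivAt x₀ hd).deriv
    have h4 : Measurable (fun t : ℝ => (fderiv ℂ K (x₀, circleMap 0 1 t)) (1, 0)) := by
      have := measurable_fderiv_apply_const ℂ K ((1, 0) : ℂ × ℂ)
      exact this.comp (by fun_prop)
    rw [← h3] at h4
    have h5 : Measurable (fun t : ℝ => circleMap 0 1 t * I) := by fun_prop
    exact h5.smul (h2.measurable.smul h4)
  · refine Eventually.of_forall fun t _ x hx => ?_
    have := hderiv _ (hcm t) x hx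
    simp only [deriv_circleMap, sub_zero, norm_smul, norm_mul, norm_div, norm_pow, norm_one,
      norm_circleMap_zero, abs_one, one_pow, norm_I, mul_one, one_mul, div_one]
    exact this
  · exact intervalIntegrable_const
  · refine Eventually.of_forall fun t _ x hx => ?_
    have hd := ((slice_x hK (circleMap 0 1 t)) x).hasDerivAt
    exact (hd.const_smul (1 / (circleMap 0 1 t - 0) ^ (j + 1) : ℂ)).const_smul
      (deriv (circleMap 0 1) t)

lemma tc_eq {K : ℂ × ℂ → ℂ} (hK : Differentiable ℂ K) (j : ℕ) (x : ℂ) :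
    tc K j x = (2 * Real.pi * I)⁻¹ * ∮ z in C(0, 1), (1 / (z - 0) ^ (j + 1)) • K (x, z) := by
  have h := DifferentiableOn.circleIntegral_one_div_sub_center_pow_smul (f := fun y => K (x, y))
    (c := 0) (R := 1) one_pos j ((slice_y hK x).differentiableOn)
  rw [h, tc, smul_eq_mul]
  have hpi : (2 * Real.pi * I : ℂ) ≠ 0 := by
    simp [Real.pi_ne_zero]
  have hf : (j.factorial : ℂ) ≠ 0 := by exact_mod_cast j.factorial_ne_zero
  field_simp

lemma differentiable_tc {K : ℂ × ℂ → ℂ} (hK : Differentiable ℂ K) (j : ℕ) :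
    Differentiable ℂ (tc K j) := by
  have : tc K j = fun x => (2 * Real.pi * I)⁻¹ *
      ∮ z in C(0, 1), (1 / (z - 0) ^ (j + 1)) • K (x, z) := by
    funext x; exact tc_eq hK j x
  rw [this]
  exact (differentiable_circle_param hK j).const_mul _


lemma root_bound {a : ℕ → ℂ → ℂ} {d : ℕ} {x : ℂ} (hx : a d x ≠ 0) {y : ℂ}
    (hy : y ∈ (pol a d x).roots) :
    ‖y‖ ≤ (∑ j ∈ Finset.range d, ‖a j x‖) / ‖a d x‖ + 1 := by
  have h1 := Polynomial.IsRoot.norm_lt_cauchyBound (pol_ne_zero hx)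
    (Polynomial.isRoot_of_mem_roots hy)
  have h2 : ((pol a d x).cauchyBound : ℝ) ≤ (∑ j ∈ Finset.range d, ‖a j x‖) / ‖a d x‖ + 1 := by
    rw [Polynomial.cauchyBound, pol_natDegree hx, pol_leadingCoeff hx]
    push_cast
    gcongr
    have : Finset.sup (Finset.range d) (fun j => ‖(pol a d x).coeff j‖₊) ≤
        ∑ j ∈ Finset.range d, ‖a j x‖₊ := by
      apply Finset.sup_le
      intro j hj
      rw [pol_coeff, if_pos (by have := Finset.mem_range.1 hj; omega)]
      exact Finset.single_le_sum (f := fun j => ‖a j x‖₊) (fun _ _ => zero_le) hj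
    have h4 : ((Finset.sup (Finset.range d) (fun j => ‖(pol a d x).coeff j‖₊) : NNReal) : ℝ) ≤
        ((∑ j ∈ Finset.range d, ‖a j x‖₊ : NNReal) : ℝ) := NNReal.coe_le_coe.2 this
    simpa using h4
  have h3 : (‖y‖₊ : ℝ) < ((pol a d x).cauchyBound : ℝ) := by exact_mod_cast h1
  exact (h3.le.trans h2)

lemma differentiableOn_prodK {a : ℕ → ℂ → ℂ} (ha : ∀ j, Differentiable ℂ (a j)) (d : ℕ)
    {K : ℂ × ℂ → ℂ} (hK : Differentiable ℂ K) :
    DifferentiableOn ℂ (prodK a d K) {x | a d x ≠ 0} := by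
  have hUo : IsOpen {x | a d x ≠ 0} := isOpen_ne_fun (ha d).continuous continuous_const
  have hlim : TendstoLocallyUniformlyOn
      (fun N => prodK a d (fun p => ∑ j ∈ Finset.range (N + 1), tc K j p.1 * p.2 ^ j))
      (prodK a d K) atTop {x | a d x ≠ 0} := by
    rw [Metric.tendstoLocallyUniformlyOn_iff]
    intro ε hε x₀ hx₀
    obtain ⟨r, hr, hrU⟩ := Metric.isOpen_iff.1 hUo x₀ hx₀
    have hsub : Metric.closedBall x₀ (r / 2) ⊆ {x | a d x ≠ 0} :=
      (Metric.closedBall_subset_ball (by linarith)).trans hrU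
    obtain ⟨R₀, hR₀⟩ : ∃ R₀ : ℝ, ∀ x ∈ Metric.closedBall x₀ (r / 2),
        ‖(∑ j ∈ Finset.range d, ‖a j x‖) / ‖a d x‖ + 1‖ ≤ R₀ := by
      apply (isCompact_closedBall x₀ (r / 2)).exists_bound_of_continuousOn
      intro x hx
      have h1 : ContinuousAt (fun x => ‖a d x‖) x := ((ha d).continuous.continuousAt).norm
      have h2 : ContinuousAt (fun x => ∑ j ∈ Finset.range d, ‖a j x‖) x :=
        (continuous_finsetSum _ (fun j _ => (ha j).continuous.norm)).continuousAt
      exact ((h2.div h1 (norm_ne_zero_iff.2 (hsub hx))).add continuousAt_const).continuousWithinAt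
    set R := max R₀ 1 with hR
    have hR1 : 0 < R := lt_of_lt_of_le one_pos (le_max_right _ _)
    have hroot : ∀ x ∈ Metric.closedBall x₀ (r / 2), ∀ y ∈ (pol a d x).roots,
        y ∈ Metric.closedBall (0:ℂ) R := by
      intro x hx y hy
      rw [mem_closedBall_zero_iff]
      calc ‖y‖ ≤ (∑ j ∈ Finset.range d, ‖a j x‖) / ‖a d x‖ + 1 := root_bound (hsub hx) hy
        _ ≤ ‖(∑ j ∈ Finset.range d, ‖a j x‖) / ‖a d x‖ + 1‖ := le_abs_self _
        _ ≤ R₀ := hR₀ x hx
        _ ≤ R := le_max_left _ _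
    obtain ⟨M, hM⟩ : ∃ M : ℝ, ∀ p ∈ (Metric.closedBall x₀ (r / 2)) ×ˢ (Metric.closedBall (0 : ℂ) R),
        ‖K p‖ ≤ M :=
      ((isCompact_closedBall x₀ (r / 2)).prod (isCompact_closedBall (0:ℂ) R)).exists_bound_of_continuousOn
        hK.continuous.continuousOn
    have hM0 : 0 ≤ M := (norm_nonneg _).trans (hM (x₀, 0) (by
      constructor
      · exact Metric.mem_closedBall_self (by linarith)
      · exact Metric.mem_closedBall_self hR1.le))
    set B := M + 1 with hB
    have hB1 : 1 ≤ B := by linarith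
    set ε' := min 1 (ε / (2 * (d * B ^ d + 1))) with hε'
    have hden : 0 < 2 * (d * B ^ d + 1) := by positivity
    have hε'0 : 0 < ε' := lt_min one_pos (by positivity)
    have hunif := uniform_tc hK x₀ (r / 2) R hR1
    rw [Metric.tendstoUniformlyOn_iff] at hunif
    refine ⟨Metric.closedBall x₀ (r / 2), mem_nhdsWithin_of_mem_nhds
      (Metric.closedBall_mem_nhds x₀ (by linarith)), ?_⟩
    have hev := (tendsto_add_atTop_nat 1).eventually (hunif ε' hε'0)
    filter_upwards [hev] with N hN x hx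
    have hmem : ∀ y ∈ (pol a d x).roots, ((x, y) : ℂ × ℂ) ∈
        Metric.closedBall x₀ (r / 2) ×ˢ Metric.closedBall (0:ℂ) R := fun y hy =>
      ⟨hx, hroot x hx y hy⟩
    have hdiff : ∀ y ∈ (pol a d x).roots, ‖K (x, y) -
        ∑ j ∈ Finset.range (N + 1), tc K j x * y ^ j‖ ≤ ε' := by
      intro y hy
      have := hN (x, y) (hmem y hy)
      rw [dist_eq_norm] at this
      exact this.le
    have hprod := multiset_prod_diff hB1 hε'0.le (fun y => K (x, y))
      (fun y => ∑ j ∈ Finset.range (N + 1), tc K j x * y ^ j) (pol a d x).roots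
      (fun y hy => (hM _ (hmem y hy)).trans (by linarith))
      (fun y hy => by
        have h1 := hdiff y hy
        have h2 := hM _ (hmem y hy)
        have h3 : ‖∑ j ∈ Finset.range (N + 1), tc K j x * y ^ j‖ ≤ ‖K (x, y)‖ +
            ‖K (x, y) - ∑ j ∈ Finset.range (N + 1), tc K j x * y ^ j‖ := by
          have := norm_sub_le (K (x, y)) (K (x, y) - ∑ j ∈ Finset.range (N + 1), tc K j x * y ^ j)
          simpa using this
        have h4 : ε' ≤ 1 := min_le_left _ _
        show ‖∑ j ∈ Finset.range (N + 1), tc K j x * y ^ j‖ ≤ B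
        linarith)
      hdiff
    rw [card_roots_pol (hsub hx)] at hprod
    rw [dist_eq_norm]
    calc ‖prodK a d K x - prodK a d (fun p => ∑ j ∈ Finset.range (N + 1), tc K j p.1 * p.2 ^ j) x‖
        ≤ d * B ^ d * ε' := hprod.2.2
      _ ≤ (d * B ^ d + 1) * (ε / (2 * (d * B ^ d + 1))) := by
          gcongr
          · linarith
          · exact min_le_right _ _
      _ = ε / 2 := by field_simp
      _ < ε := by linarith
  refine hlim.differentiableOn ?_ hUo
  refine Eventually.of_forall fun N => ?_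
  exact differentiableOn_prod_pol ha (fun j => differentiable_tc hK j) d N


lemma eventually_ne_zero {a : ℂ → ℂ} (ha : Differentiable ℂ a) (hne : ∃ z, a z ≠ 0) (c : ℂ) :
    ∀ᶠ x in 𝓝[≠] c, a x ≠ 0 := by
  have haa : AnalyticOnNhd ℂ a univ := fun z _ => ha.analyticAt z
  rcases (ha.analyticAt c).eventually_eq_zero_or_eventually_ne_zero with h | h
  · exfalso
    obtain ⟨z, hz⟩ := hne
    apply hz
    have := haa.eqOn_zero_of_preconnected_of_eventuallyEq_zero isPreconnected_univ (mem_univ c) h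
    exact this (mem_univ z)
  · exact h

lemma liouville_off_zeros {a : ℂ → ℂ} (ha : Differentiable ℂ a) (hne : ∃ z, a z ≠ 0)
    {B : ℂ → ℂ} (hB : DifferentiableOn ℂ B {x | a x ≠ 0}) {M : ℝ}
    (hM : ∀ x, a x ≠ 0 → ‖B x‖ ≤ M) {x y : ℂ} (hx : a x ≠ 0) (hy : a y ≠ 0) : B x = B y := by
  have hUo : IsOpen {x | a x ≠ 0} := isOpen_ne_fun ha.continuous continuous_const
  set Φ : ℂ → ℂ := fun x => limUnder (𝓝[≠] x) B with hΦ
  have hΦB : ∀ x, a x ≠ 0 → Φ x = B x := by
    intro x hx
    have hc : ContinuousAt B x := (hB.differentiableAt (hUo.mem_nhds hx)).continuousAt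
    exact (hc.tendsto.mono_left nhdsWithin_le_nhds).limUnder_eq
  have hΦd : Differentiable ℂ Φ := by
    intro c
    have h1 := eventually_ne_zero ha hne c
    rw [eventually_nhdsWithin_iff] at h1
    obtain ⟨s, hs, hso, hcs⟩ := eventually_nhds_iff.1 h1
    have hsub : s \ {c} ⊆ {x | a x ≠ 0} := fun z hz => hs z hz.1 hz.2
    have h2 := Complex.differentiableOn_update_limUnder_of_bddAbove (hso.mem_nhds hcs)
      (hB.mono hsub) ⟨M, by
        rintro _ ⟨z, hz, rfl⟩
        exact hM z (hsub hz)⟩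
    have h3 : Function.update B c (limUnder (𝓝[≠] c) B) =ᶠ[𝓝 c] Φ := by
      filter_upwards [hso.mem_nhds hcs] with z hz
      by_cases hzc : z = c
      · subst hzc; simp [hΦ]
      · rw [Function.update_of_ne hzc]
        exact (hΦB z (hsub ⟨hz, hzc⟩)).symm
    exact (h2.differentiableAt (hso.mem_nhds hcs)).congr_of_eventuallyEq h3.symm
  have hdense : Dense {x | a x ≠ 0} := by
    intro c
    rw [mem_closure_iff_frequently]
    have h1 := eventually_ne_zero ha hne c
    exact (h1.frequently).filter_mono nhdsWithin_le_nhds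
  have hbd : ∀ x, ‖Φ x‖ ≤ M := by
    have hcl : IsClosed {x | ‖Φ x‖ ≤ M} := isClosed_le hΦd.continuous.norm continuous_const
    intro x
    have : closure {x | a x ≠ 0} ⊆ {x | ‖Φ x‖ ≤ M} :=
      hcl.closure_subset_iff.2 (fun z hz => by
        show ‖Φ z‖ ≤ M
        rw [hΦB z hz]; exact hM z hz)
    exact this (hdense x)
  have hconst := hΦd.apply_eq_apply_of_bounded
    ((isBounded_iff_forall_norm_le).2 ⟨M, by rintro _ ⟨z, rfl⟩; exact hbd z⟩) x y
  rw [← hΦB x hx, ← hΦB y hy, hconst]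


lemma trick {s : ℂ × ℂ → ℂ} (hs : Differentiable ℂ s) (hs0 : ∀ p, s p ≠ 0) {S : Set (ℂ × ℂ)}
    (hinj : ∀ p ∈ S, ∀ q ∈ S, s p ^ 2 = s q ^ 2 → p = q) {γ : ℂ → ℂ × ℂ} {t₀ : ℂ}
    (hγd : ∀ᶠ t in 𝓝 t₀, DifferentiableAt ℂ γ t) (hγS : ∀ᶠ t in 𝓝 t₀, γ t ∈ S)
    (hγinj : ∀ᶠ t in 𝓝 t₀, γ t = γ t₀ → t = t₀) :
    ∃ δ > 0, ∀ p ∈ S, δ ≤ ‖s p + s (γ t₀)‖ := by
  have hφ : AnalyticAt ℂ (fun t => s (γ t)) t₀ := by
    rw [Complex.analyticAt_iff_eventually_differentiableAt]
    filter_upwards [hγd] with t ht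
    exact (hs (γ t)).comp t ht
  have ht₀S : γ t₀ ∈ S := hγS.self_of_nhds
  rcases hφ.eventually_constant_or_nhds_le_map_nhds with h | h
  · exfalso
    -- eventually constant contradicts injectivity
    have h1 : ∀ᶠ t in 𝓝 t₀, t = t₀ := by
      filter_upwards [h, hγS, hγinj] with t ht hS hi
      exact hi (hinj _ hS _ ht₀S (by rw [ht]))
    have h2 : ∀ᶠ t in 𝓝[≠] t₀, t = t₀ := h1.filter_mono nhdsWithin_le_nhds
    have h3 : ∀ᶠ t in 𝓝[≠] t₀, t ≠ t₀ := eventually_mem_nhdsWithin
    obtain ⟨t, ht1, ht2⟩ := (h2.and h3).exists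
    exact ht2 ht1
  · have h1 : (fun t => s (γ t)) '' {t | γ t ∈ S} ∈ 𝓝 (s (γ t₀)) := by
      apply h
      exact image_mem_map hγS
    obtain ⟨δ, hδ, hball⟩ := Metric.mem_nhds_iff.1 h1
    refine ⟨δ, hδ, fun p hp => ?_⟩
    by_contra hlt
    rw [not_le] at hlt
    have h2 : -s p ∈ Metric.ball (s (γ t₀)) δ := by
      rw [Metric.mem_ball, dist_eq_norm]
      rw [← norm_neg]
      have e : -(-s p - s (γ t₀)) = s p + s (γ t₀) := by ring
      rw [e]
      exact hlt
    obtain ⟨t, htS, ht⟩ := hball h2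
    simp only at ht
    have h3 : p = γ t := hinj p hp (γ t) htS (by rw [ht]; ring)
    rw [← h3] at ht
    have h4 : s p = 0 := by
      have : s p + s p = 0 := by nth_rewrite 1 [ht]; ring
      have h5 : 2 * s p = 0 := by rw [two_mul]; exact this
      simpa using h5
    exact hs0 p h4

lemma caseA {u v : ℂ × ℂ → ℂ} (hv : Differentiable ℂ v)
    (hinj : ∀ p q, exp (u p) = exp (u q) → exp (v p) = exp (v q) → p = q)
    {a : ℂ → ℂ} (hpol : ∀ x y, u (x, y) = a x) : False := by
  set s : ℂ × ℂ → ℂ := fun p => exp (v p / 2) with hsdef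
  have hs : Differentiable ℂ s := by
    intro p
    exact ((hv p).mul_const (2:ℂ)⁻¹).cexp.congr_of_eventuallyEq (by
      refine Eventually.of_forall fun q => ?_
      simp [hsdef, div_eq_mul_inv])
  have hs2 : ∀ p, s p ^ 2 = exp (v p) := by
    intro p
    simp only [hsdef]
    rw [← Complex.exp_nat_mul]
    congr 1
    push_cast
    ring
  obtain ⟨δ, hδ, hb⟩ := trick hs (fun p => Complex.exp_ne_zero _) (S := {p | p.1 = 0})
    (γ := fun t => (0, t)) (t₀ := 0) (by
      rintro ⟨x, y⟩ hp ⟨x', y'⟩ hq h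
      rw [hs2, hs2] at h
      simp only [Set.mem_ofPred_eq] at hp hq
      subst hp; subst hq
      apply hinj _ _ _ h
      rw [hpol, hpol])
    (Eventually.of_forall fun t => by fun_prop)
    (Eventually.of_forall fun t => rfl)
    (Eventually.of_forall fun t h => by simpa using h)
  have hne : ∀ y, s (0, y) + s (0, 0) ≠ 0 := fun y h => by
    have := hb (0, y) rfl
    rw [h, norm_zero] at this
    linarith
  have hd : Differentiable ℂ (fun y => (s (0, y) + s (0, 0))⁻¹) := by
    intro y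
    have h1 : DifferentiableAt ℂ (fun y : ℂ => s (0, y) + s (0, 0)) y := by
      have : Differentiable ℂ (fun y : ℂ => s (0, y)) := by fun_prop
      exact (this y).add_const _
    exact h1.inv (hne y)
  have hc := hd.apply_eq_apply_of_bounded ((isBounded_iff_forall_norm_le).2 ⟨δ⁻¹, by
    rintro _ ⟨y, rfl⟩
    simp only [norm_inv]
    have := hb (0, y) rfl
    gcongr⟩) 0 1
  simp only [inv_inj] at hc
  have h1 : s (0, 0) = s (0, 1) := by
    have := add_right_cancel hc
    exact this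
  have h2 : exp (v (0, 0)) = exp (v (0, 1)) := by rw [← hs2, ← hs2, h1]
  have := hinj (0, 0) (0, 1) (by rw [hpol, hpol]) h2
  simp at this


lemma multiset_prod_lower {δ : ℝ} (hδ : 0 ≤ δ) (f : ℂ → ℂ) (s : Multiset ℂ)
    (hf : ∀ y ∈ s, δ ≤ ‖f y‖) : δ ^ (Multiset.card s) ≤ ‖(s.map f).prod‖ := by
  induction s using Multiset.induction with
  | empty => simp
  | cons y s ih =>
    have h1 := ih (fun z hz => hf z (Multiset.mem_cons_of_mem hz))
    have h2 := hf y (Multiset.mem_cons_self y s)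
    simp only [Multiset.map_cons, Multiset.prod_cons, Multiset.card_cons, norm_mul]
    rw [pow_succ, mul_comm]
    gcongr

lemma caseB {u v : ℂ × ℂ → ℂ} (hv : Differentiable ℂ v)
    (hinj : ∀ p q, exp (u p) = exp (u q) → exp (v p) = exp (v q) → p = q)
    {a : ℕ → ℂ → ℂ} (ha : ∀ j, Differentiable ℂ (a j)) {d : ℕ} (hd : 1 ≤ d)
    (hne : ∃ x, a d x ≠ 0)
    (hpol : ∀ x y, u (x, y) = ∑ j ∈ Finset.range (d + 1), a j x * y ^ j) : False := by
  obtain ⟨x₀, hx₀⟩ := hne
  -- a simple point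
  obtain ⟨y₀, hy₀⟩ : ∃ y₀, (Polynomial.derivative (pol a d x₀)).eval y₀ ≠ 0 := by
    by_contra hcon
    push Not at hcon
    have h1 : Polynomial.derivative (pol a d x₀) = 0 := by
      apply Polynomial.funext
      intro r
      rw [hcon r]; simp
    have h2 := Polynomial.derivative_eq_zero.1 h1
    rw [pol_natDegree hx₀] at h2
    omega
  have hufun : u = fun p : ℂ × ℂ => ∑ j ∈ Finset.range (d + 1), a j p.1 * p.2 ^ j := by
    funext p
    exact hpol p.1 p.2
  have hucd : ContDiff ℂ 1 u := by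
    rw [hufun]
    refine ContDiff.sum fun j _ => ?_
    have h1 : ContDiff ℂ 1 (a j) := (ha j).contDiff
    fun_prop
  set c := u (x₀, y₀) with hc
  have cdf : ContDiffAt ℂ 1 u (x₀, y₀) := hucd.contDiffAt
  have hder : fderiv ℂ u (x₀, y₀) (0, 1) = (Polynomial.derivative (pol a d x₀)).eval y₀ := by
    have h1 : HasDerivAt (fun y : ℂ => ((x₀, y) : ℂ × ℂ)) (0, 1) y₀ :=
      (hasDerivAt_const y₀ x₀).prodMk (hasDerivAt_id y₀)
    have h2 := ((hucd.differentiable one_ne_zero (x₀, y₀)).hasFDerivAt.comp_hasDerivAt y₀ h1)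
    have h3 : HasDerivAt (fun y => (pol a d x₀).eval y)
        ((Polynomial.derivative (pol a d x₀)).eval y₀) y₀ := (pol a d x₀).hasDerivAt y₀
    have h4 : (u ∘ fun y : ℂ => ((x₀, y) : ℂ × ℂ)) = fun y => (pol a d x₀).eval y := by
      funext y
      simp only [Function.comp]
      rw [hpol, pol_eval]
    rw [h4] at h2
    exact h2.unique h3
  have if₂ : (fderiv ℂ u (x₀, y₀) ∘L .inr ℂ ℂ ℂ).IsInvertible := by
    refine ⟨ContinuousLinearEquiv.unitsEquivAut ℂ (Units.mk0 _ hy₀), ?_⟩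
    ext
    simp [← hder]
  have hη := cdf.contDiffAt_implicitFunction one_ne_zero if₂
  have hη0 := cdf.implicitFunction_apply_self one_ne_zero if₂
  have hηe := cdf.eventually_apply_implicitFunction one_ne_zero if₂
  set η := cdf.implicitFunction one_ne_zero if₂ with hηdef
  simp only at hη hη0 hηe
  set s : ℂ × ℂ → ℂ := fun p => exp (v p / 2) with hsdef
  have hs : Differentiable ℂ s := by
    intro p
    exact ((hv p).mul_const (2:ℂ)⁻¹).cexp.congr_of_eventuallyEq (by
      refine Eventually.of_forall fun q => ?_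
      simp [hsdef, div_eq_mul_inv])
  have hs2 : ∀ p, s p ^ 2 = exp (v p) := by
    intro p
    simp only [hsdef]
    rw [← Complex.exp_nat_mul]
    congr 1
    push_cast
    ring
  obtain ⟨δ, hδ, hb⟩ := trick hs (fun p => Complex.exp_ne_zero _) (S := {p | u p = c})
    (γ := fun t => (t, η t)) (t₀ := x₀) (by
      intro p hp q hq h
      rw [hs2, hs2] at h
      simp only [Set.mem_ofPred_eq] at hp hq
      apply hinj _ _ _ h
      rw [hp, hq])
    (by
      have h1 := hη.eventually (by simp)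
      filter_upwards [h1] with t ht
      exact differentiableAt_id.prodMk (ht.differentiableAt one_ne_zero))
    (by
      filter_upwards [hηe] with t ht
      exact ht)
    (Eventually.of_forall fun t h => by
      have := congrArg Prod.fst h
      exact this)
  rw [show (x₀, η x₀) = (x₀, y₀) by rw [hη0]] at hb
  set H : ℂ × ℂ → ℂ := fun p => s p + s (x₀, y₀) with hH
  have hHd : Differentiable ℂ H := hs.add_const _
  set b : ℕ → ℂ → ℂ := fun j x => if j = 0 then a 0 x - c else a j x with hbdef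
  have hbd : ∀ j, Differentiable ℂ (b j) := by
    intro j
    by_cases hj : j = 0
    · simp only [hbdef, hj, if_true]
      exact (ha 0).sub_const c
    · simp only [hbdef, hj, if_false]
      exact ha j
  have hbd' : b d = a d := by
    funext x
    simp only [hbdef]
    rw [if_neg (by omega)]
  have hbeval : ∀ x y, (pol b d x).eval y = u (x, y) - c := by
    intro x y
    rw [pol_eval, hpol, Finset.sum_range_succ', Finset.sum_range_succ' (fun j => a j x * y ^ j)]
    simp only [hbdef]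
    have : ∀ i, (if i + 1 = 0 then a 0 x - c else a (i + 1) x) = a (i + 1) x := by
      intro i; rw [if_neg (by omega)]
    simp only [this]
    simp
    ring
  have hroots : ∀ x, a d x ≠ 0 → ∀ y, y ∈ (pol b d x).roots ↔ u (x, y) = c := by
    intro x hx y
    rw [Polynomial.mem_roots (pol_ne_zero (by rw [hbd']; exact hx)), Polynomial.IsRoot.def, hbeval,
      sub_eq_zero]
  have hcard : ∀ x, a d x ≠ 0 → Multiset.card (pol b d x).roots = d := by
    intro x hx
    exact card_roots_pol (by rw [hbd']; exact hx)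
  have hPd := differentiableOn_prodK hbd d hHd
  have hPd' := differentiableOn_prodK hbd d (hHd.sub_const (H (x₀, y₀)))
  rw [hbd'] at hPd hPd'
  have hlow : ∀ x, a d x ≠ 0 → δ ^ d ≤ ‖prodK b d H x‖ := by
    intro x hx
    have := multiset_prod_lower hδ.le (fun y => H (x, y)) (pol b d x).roots (fun y hy =>
      hb (x, y) ((hroots x hx y).1 hy))
    rw [hcard x hx] at this
    exact this
  have hP0 : ∀ x, a d x ≠ 0 → prodK b d H x ≠ 0 := by
    intro x hx h
    have := hlow x hx
    rw [h, norm_zero] at this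
    have : 0 < δ ^ d := by positivity
    linarith
  have hconst : ∀ x, a d x ≠ 0 → prodK b d H x = prodK b d H x₀ := by
    intro x hx
    have h1 := liouville_off_zeros (ha d) ⟨x₀, hx₀⟩ (B := fun x => (prodK b d H x)⁻¹)
      (fun z hz => ((hPd z hz).inv (hP0 z hz))) (M := (δ ^ d)⁻¹) (fun z hz => by
        rw [norm_inv]
        have := hlow z hz
        have : 0 < δ ^ d := by positivity
        gcongr) hx hx₀
    simpa using h1
  -- upper bound
  set M := ‖prodK b d H x₀‖ / δ ^ (d - 1) with hMdef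
  have hup : ∀ x, a d x ≠ 0 → ∀ y ∈ (pol b d x).roots, ‖H (x, y)‖ ≤ M := by
    intro x hx y hy
    rw [hMdef, le_div_iff₀ (by positivity), ← hconst x hx, prodK]
    obtain ⟨t, ht⟩ := Multiset.exists_cons_of_mem hy
    have hct : Multiset.card t = d - 1 := by
      have := hcard x hx
      rw [ht, Multiset.card_cons] at this
      omega
    rw [ht, Multiset.map_cons, Multiset.prod_cons, norm_mul]
    gcongr
    have := multiset_prod_lower hδ.le (fun y => H (x, y)) t (fun z hz =>
      hb (x, z) ((hroots x hx z).1 (by rw [ht]; exact Multiset.mem_cons_of_mem hz)))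
    rw [hct] at this
    exact this
  have hM0 : 0 ≤ M := by positivity
  have hzero : prodK b d (fun p => H p - H (x₀, y₀)) x₀ = 0 := by
    rw [prodK, Multiset.prod_eq_zero_iff, Multiset.mem_map]
    exact ⟨y₀, (hroots x₀ hx₀ y₀).2 rfl, by simp⟩
  have hconst' : ∀ x, a d x ≠ 0 → prodK b d (fun p => H p - H (x₀, y₀)) x = 0 := by
    intro x hx
    rw [← hzero]
    refine liouville_off_zeros (ha d) ⟨x₀, hx₀⟩ hPd'
      (M := (M + ‖H (x₀, y₀)‖ + 1) ^ d) (fun z hz => ?_) hx hx₀
    have h1 := (multiset_prod_diff (B := M + ‖H (x₀, y₀)‖ + 1) (ε := 0)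
      (by have := norm_nonneg (H (x₀, y₀)); linarith) le_rfl
      (fun y => H (z, y) - H (x₀, y₀)) (fun y => H (z, y) - H (x₀, y₀)) (pol b d z).roots
      (fun y hy => by
        have h2 := hup z hz y hy
        have h3 := norm_sub_le (H (z, y)) (H (x₀, y₀))
        show ‖H (z, y) - H (x₀, y₀)‖ ≤ _
        linarith)
      (fun y hy => by
        have h2 := hup z hz y hy
        have h3 := norm_sub_le (H (z, y)) (H (x₀, y₀))
        show ‖H (z, y) - H (x₀, y₀)‖ ≤ _
        linarith)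
      (fun y hy => by simp)).1
    rw [hcard z hz] at h1
    exact h1
  -- another point
  obtain ⟨x₁, hx₁, hx₁0⟩ : ∃ x₁, a d x₁ ≠ 0 ∧ x₁ ≠ x₀ := by
    have h1 := eventually_ne_zero (ha d) ⟨x₀, hx₀⟩ x₀
    have h3 : ∀ᶠ t in 𝓝[≠] x₀, t ≠ x₀ := eventually_mem_nhdsWithin
    exact (h1.and h3).exists
  have h1 := hconst' x₁ hx₁
  rw [prodK, Multiset.prod_eq_zero_iff, Multiset.mem_map] at h1
  obtain ⟨y₁, hy₁, h2⟩ := h1
  have h3 : s (x₁, y₁) = s (x₀, y₀) := by
    have h4 : H (x₁, y₁) = H (x₀, y₀) := sub_eq_zero.1 h2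
    simp only [hH] at h4
    exact add_right_cancel h4
  have h5 : exp (v (x₁, y₁)) = exp (v (x₀, y₀)) := by rw [← hs2, ← hs2, h3]
  have h6 := hinj (x₁, y₁) (x₀, y₀) (by rw [(hroots x₁ hx₁ y₁).1 hy₁]) h5
  exact hx₁0 (congrArg Prod.fst h6)

lemma core {u v : ℂ × ℂ → ℂ} (hv : Differentiable ℂ v)
    (hinj : ∀ p q, exp (u p) = exp (u q) → exp (v p) = exp (v q) → p = q)
    {a : ℕ → ℂ → ℂ} (ha : ∀ j, Differentiable ℂ (a j)) (n : ℕ)
    (hpol : ∀ x y, u (x, y) = ∑ j ∈ Finset.range (n + 1), a j x * y ^ j) : False := by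
  induction n with
  | zero =>
    apply caseA hv hinj (a := a 0)
    intro x y
    rw [hpol]; simp
  | succ n ih =>
    by_cases h : ∃ x, a (n + 1) x ≠ 0
    · exact caseB hv hinj ha (by omega) h hpol
    · push Not at h
      apply ih
      intro x y
      rw [hpol, Finset.sum_range_succ, h x]
      simp


lemma exists_log (g : ℂ × ℂ → ℂ) (hg : Differentiable ℂ g) (h0 : ∀ z, g z ≠ 0) :
    ∃ u : ℂ × ℂ → ℂ, Differentiable ℂ u ∧ ∀ z, exp (u z) = g z := by
  have hsc : IsSimplyConnected (Set.univ : Set (ℂ × ℂ)) :=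
    (Homeomorph.Set.univ (ℂ × ℂ)).toHomotopyEquiv.simplyConnectedSpace_iff.2 inferInstance
  obtain ⟨u, hu, hug⟩ := Complex.exists_continuousOn_eqOn_exp_comp hsc isOpen_univ
    (g := g) hg.continuous.continuousOn (by simpa using h0)
  rw [continuousOn_univ] at hu
  have hexp : ∀ z, exp (u z) = g z := fun z => hug (mem_univ z)
  refine ⟨u, ?_, hexp⟩
  intro z₀
  have hnear : ∀ᶠ z in 𝓝 z₀, ‖u z - u z₀‖ < 1 := by
    have := Metric.continuous_iff'.1 hu z₀ 1 one_pos
    simpa [dist_eq_norm] using this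
  have heq : u =ᶠ[𝓝 z₀] fun z => u z₀ + Complex.log (g z * (g z₀)⁻¹) := by
    filter_upwards [hnear] with z hz
    have h1 : g z * (g z₀)⁻¹ = exp (u z - u z₀) := by
      rw [exp_sub, hexp, hexp, div_eq_mul_inv]
    rw [h1, Complex.log_exp]
    · ring
    · have := Complex.abs_im_le_norm (u z - u z₀)
      have h3 := abs_le.1 this
      linarith [Real.pi_gt_three]
    · have := Complex.abs_im_le_norm (u z - u z₀)
      have h3 := abs_le.1 this
      linarith [Real.pi_gt_three]
  refine DifferentiableAt.congr_of_eventuallyEq ?_ heq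
  have : DifferentiableAt ℂ (fun z => g z * (g z₀)⁻¹) z₀ := (hg z₀).mul_const _
  refine (DifferentiableAt.clog this ?_).const_add _
  rw [mul_inv_cancel₀ (h0 z₀)]
  exact one_mem_slitPlane


lemma countable_zeros {a : ℂ → ℂ} (ha : Differentiable ℂ a) (hne : ∃ z, a z ≠ 0) :
    {x | a x = 0}.Countable := by
  apply (HereditarilyLindelofSpace.isLindelof _).countable_of_isDiscrete
  rw [isDiscrete_iff_nhdsNE]
  intro c _
  rw [← _root_.disjoint_iff, Filter.disjoint_principal_right]
  filter_upwards [eventually_ne_zero ha hne c] with x hx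
  exact hx

/-- An entire function of one variable with real part bounded above by a polynomial in `‖y‖`
is a polynomial (its Taylor coefficients vanish eventually). -/
lemma taylor_vanish {h : ℂ → ℂ} (hh : Differentiable ℂ h) {C : ℝ} {k : ℕ}
    (hC : ∀ y, (h y).re ≤ C * (1 + ‖y‖) ^ k) {n : ℕ} (hn : k < n) : iteratedDeriv n h 0 = 0 := by
  set A := max C 1 with hA
  have hA1 : 1 ≤ A := le_max_right _ _
  have hAC : ∀ y, (h y).re ≤ A * (1 + ‖y‖) ^ k := fun y =>
    (hC y).trans (by gcongr; exact le_max_left _ _)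
  -- bound on circles
  have hbd : ∀ r : ℝ, 1 ≤ r → ∀ z ∈ Metric.sphere (0 : ℂ) r,
      ‖h z‖ ≤ (2 * A * 3 ^ k + 3 * ‖h 0‖) * r ^ k := by
    intro r hr z hz
    have hzr : ‖z‖ = r := by simpa using hz
    have hBC := Complex.borelCaratheodory (f := h) (M := A * (1 + 2 * r) ^ k) (R := 2 * r) (z := z)
      (by positivity) hh.differentiableOn (by
        intro y hy
        have hy' : ‖y‖ < 2 * r := by simpa using hy
        show (h y).re ≤ _
        refine (hAC y).trans ?_
        gcongr) (by linarith) (by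
        rw [mem_ball_zero_iff, hzr]; linarith)
    rw [hzr] at hBC
    have e1 : 2 * (A * (1 + 2 * r) ^ k) * r / (2 * r - r) = 2 * (A * (1 + 2 * r) ^ k) := by
      have : 2 * r - r = r := by ring
      rw [this]; field_simp
    have e2 : ‖h 0‖ * (2 * r + r) / (2 * r - r) = 3 * ‖h 0‖ := by
      have : 2 * r - r = r := by ring
      rw [this]; field_simp; ring
    rw [e1, e2] at hBC
    have h3 : (1 + 2 * r) ^ k ≤ (3 * r) ^ k := by gcongr; linarith
    have h4 : 1 ≤ r ^ k := one_le_pow₀ hr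
    have h5 : 3 * ‖h 0‖ ≤ 3 * ‖h 0‖ * r ^ k := by
      nlinarith [norm_nonneg (h 0)]
    calc ‖h z‖ ≤ 2 * (A * (1 + 2 * r) ^ k) + 3 * ‖h 0‖ := hBC
      _ ≤ 2 * (A * (3 * r) ^ k) + 3 * ‖h 0‖ * r ^ k := by gcongr
      _ = (2 * A * 3 ^ k + 3 * ‖h 0‖) * r ^ k := by rw [mul_pow]; ring
  set D := 2 * A * 3 ^ k + 3 * ‖h 0‖ with hD
  have hD0 : 0 ≤ D := by positivity
  by_contra hne
  have hpos : 0 < ‖iteratedDeriv n h 0‖ := norm_pos_iff.2 hne
  set X := ‖iteratedDeriv n h 0‖ with hX
  set r := 1 + n.factorial * D / X with hr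
  have hr1 : 1 ≤ r := by
    have : 0 ≤ n.factorial * D / X := by positivity
    linarith
  have hr0 : 0 < r := by linarith
  have hCE := Complex.norm_iteratedDeriv_le_of_forall_mem_sphere_norm_le n hr0 hh.diffContOnCl
    (hbd r hr1)
  have h1 : n.factorial * (D * r ^ k) / r ^ n ≤ n.factorial * D / r := by
    rw [div_le_div_iff₀ (by positivity) hr0]
    have h2 : r ^ k * r ≤ r ^ n := by
      rw [← pow_succ]
      exact pow_le_pow_right₀ hr1 hn
    calc n.factorial * (D * r ^ k) * r = n.factorial * D * (r ^ k * r) := by ring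
      _ ≤ n.factorial * D * r ^ n := by gcongr
  have h2 : X ≤ n.factorial * D / r := hCE.trans h1
  rw [le_div_iff₀ hr0, hr] at h2
  have h3 : X * (1 + n.factorial * D / X) = X + n.factorial * D := by
    field_simp
  rw [h3] at h2
  linarith

lemma countable_finite_order {u v : ℂ × ℂ → ℂ} (hu : Differentiable ℂ u) (hv : Differentiable ℂ v)
    (hinj : ∀ p q, exp (u p) = exp (u q) → exp (v p) = exp (v q) → p = q) :
    {x : ℂ | ∃ (C : ℝ) (k : ℕ), ∀ y, (u (x, y)).re ≤ C * (1 + ‖y‖) ^ k}.Countable := by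
  by_contra hunc
  have hsub : {x : ℂ | ∃ (C : ℝ) (k : ℕ), ∀ y, (u (x, y)).re ≤ C * (1 + ‖y‖) ^ k} ⊆
      ⋃ n : ℕ, {x : ℂ | ∀ j, n < j → tc u j x = 0} := by
    rintro x ⟨C, k, hC⟩
    rw [mem_iUnion]
    refine ⟨k, fun j hj => ?_⟩
    rw [tc, taylor_vanish (slice_y hu x) hC hj, mul_zero]
  have hex : ∃ n : ℕ, ¬ {x : ℂ | ∀ j, n < j → tc u j x = 0}.Countable := by
    by_contra hcon
    push Not at hcon
    exact hunc ((countable_iUnion hcon).mono hsub)
  obtain ⟨n, hn⟩ := hex
  have hz : ∀ j, n < j → ∀ x, tc u j x = 0 := by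
    intro j hj
    by_contra hcon
    push Not at hcon
    apply hn
    refine (countable_zeros (differentiable_tc hu j) hcon).mono ?_
    intro x hx
    exact hx j hj
  refine core hv hinj (fun j => differentiable_tc hu j) n ?_
  intro x y
  have h1 := hasSum_tc hu x y
  have h2 : HasSum (fun j => tc u j x * y ^ j) (∑ j ∈ Finset.range (n + 1), tc u j x * y ^ j) := by
    apply hasSum_sum_of_ne_finset_zero
    intro j hj
    rw [hz j (by rw [Finset.mem_range] at hj; omega) x, zero_mul]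
  exact h1.unique h2

/-- **Theorem.** Let `F = (f, g) : ℂ² → ℂ²` be an injective entire map omitting both axes.
For every nontrivial monomial `f ^ a * g ^ b` and every direction `w`, the restriction of the
monomial to all but countably many lines of direction `w` is of infinite order. -/
theorem result (F : ℂ × ℂ → ℂ × ℂ) (hF : Differentiable ℂ F) (hinj : Function.Injective F)
    (h0 : ∀ z, (F z).1 ≠ 0 ∧ (F z).2 ≠ 0) (a b : ℤ) (hab : (a, b) ≠ (0, 0))
    (p w : ℂ × ℂ) (hpw : LinearIndependent ℂ ![p, w]) :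
    {x : ℂ | ∃ C ρ : ℝ, ∀ y : ℂ,
      ‖(F (x • p + y • w)).1 ^ a * (F (x • p + y • w)).2 ^ b‖ ≤
        Real.exp (C * (1 + ‖y‖) ^ ρ)}.Countable := by
  set L : ℂ × ℂ → ℂ × ℂ := fun z => z.1 • p + z.2 • w with hL
  have hLd : Differentiable ℂ L := by
    simp only [hL]; fun_prop
  have hLinj : Function.Injective L := by
    intro z z' h
    simp only [hL] at h
    have h1 : (z.1 - z'.1) • p + (z.2 - z'.2) • w = 0 := by
      rw [sub_smul, sub_smul]
      have : z.1 • p - z'.1 • p + (z.2 • w - z'.2 • w) =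
        (z.1 • p + z.2 • w) - (z'.1 • p + z'.2 • w) := by abel
      rw [this, h, sub_self]
    have h2 := LinearIndependent.pair_iff.1 hpw _ _ h1
    exact Prod.ext (sub_eq_zero.1 h2.1) (sub_eq_zero.1 h2.2)
  obtain ⟨u, hu, hue⟩ := exists_log (fun z => (F (L z)).1) (by
    exact (hF.comp hLd).fst) (fun z => (h0 (L z)).1)
  obtain ⟨v, hv, hve⟩ := exists_log (fun z => (F (L z)).2) (by
    exact (hF.comp hLd).snd) (fun z => (h0 (L z)).2)
  -- gcd
  have hg : 0 < Int.gcd a b := by
    rw [Int.gcd_pos_iff]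
    by_contra hcon
    push Not at hcon
    exact hab (by rw [hcon.1, hcon.2])
  obtain ⟨a', b', hcop, ha', hb'⟩ : ∃ a' b' : ℤ, IsCoprime a' b' ∧ a = a' * (Int.gcd a b) ∧
      b = b' * (Int.gcd a b) := by
    obtain ⟨a', b', h1, h2, h3⟩ := Int.exists_gcd_one hg
    exact ⟨a', b', Int.isCoprime_iff_gcd_eq_one.2 h1, h2, h3⟩
  obtain ⟨l, k, hlk⟩ := hcop
  -- l * a' + k * b' = 1
  set u' : ℂ × ℂ → ℂ := fun z => (a' : ℂ) * u z + (b' : ℂ) * v z with hu'
  set v' : ℂ × ℂ → ℂ := fun z => (-(k : ℂ)) * u z + (l : ℂ) * v z with hv'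
  have hu'd : Differentiable ℂ u' := (hu.const_mul _).add (hv.const_mul _)
  have hv'd : Differentiable ℂ v' := (hu.const_mul _).add (hv.const_mul _)
  have hlkC : (l : ℂ) * a' + (k : ℂ) * b' = 1 := by exact_mod_cast hlk
  have hinj' : ∀ z z', exp (u' z) = exp (u' z') → exp (v' z) = exp (v' z') → z = z' := by
    intro z z' h1 h2
    have e1 : ∀ z, exp (u z) = exp (u' z) ^ l * (exp (v' z) ^ b')⁻¹ := by
      intro z
      rw [← Complex.exp_int_mul, ← Complex.exp_int_mul, ← Complex.exp_neg, ← Complex.exp_add]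
      congr 1
      simp only [hu', hv']
      linear_combination (- u z) * hlkC
    have e2 : ∀ z, exp (v z) = exp (u' z) ^ k * exp (v' z) ^ a' := by
      intro z
      rw [← Complex.exp_int_mul, ← Complex.exp_int_mul, ← Complex.exp_add]
      congr 1
      simp only [hu', hv']
      linear_combination (- v z) * hlkC
    apply hLinj
    apply hinj
    have h3 : exp (u z) = exp (u z') := by rw [e1, e1, h1, h2]
    have h4 : exp (v z) = exp (v z') := by rw [e2, e2, h1, h2]
    rw [hue, hue] at h3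
    rw [hve, hve] at h4
    exact Prod.ext h3 h4
  refine (countable_finite_order hu'd hv'd hinj').mono ?_
  rintro x ⟨C, ρ, hC⟩
  obtain ⟨m, hm⟩ := exists_nat_ge ρ
  refine ⟨|C| / (Int.gcd a b), m, fun y => ?_⟩
  have h1 := hC y
  have hz : x • p + y • w = L (x, y) := rfl
  rw [hz, ← hue, ← hve, ← Complex.exp_int_mul, ← Complex.exp_int_mul, ← Complex.exp_add,
    Complex.norm_exp, Real.exp_le_exp] at h1
  have h2 : ((a : ℂ) * u (x, y) + (b : ℂ) * v (x, y)) = ((Int.gcd a b : ℕ) : ℂ) * u' (x, y) := by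
    simp only [hu']
    have ea : (a : ℂ) = a' * ((Int.gcd a b : ℕ) : ℂ) := by exact_mod_cast congrArg (Int.cast : ℤ → ℂ) ha'
    have eb : (b : ℂ) = b' * ((Int.gcd a b : ℕ) : ℂ) := by exact_mod_cast congrArg (Int.cast : ℤ → ℂ) hb'
    rw [ea, eb]
    ring
  rw [h2] at h1
  have h3 : (((Int.gcd a b : ℕ) : ℂ) * u' (x, y)).re = (Int.gcd a b : ℝ) * (u' (x, y)).re := by
    simp
  rw [h3] at h1
  have hgR : (0 : ℝ) < (Int.gcd a b : ℝ) := by exact_mod_cast hg
  have h4 : C * (1 + ‖y‖) ^ ρ ≤ |C| * (1 + ‖y‖) ^ m := by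
    have h5 : (1 + ‖y‖) ^ ρ ≤ (1 + ‖y‖) ^ (m : ℝ) :=
      Real.rpow_le_rpow_of_exponent_le (by linarith [norm_nonneg y]) hm
    rw [Real.rpow_natCast] at h5
    have h6 : 0 ≤ (1 + ‖y‖) ^ ρ := by positivity
    calc C * (1 + ‖y‖) ^ ρ ≤ |C| * (1 + ‖y‖) ^ ρ := by gcongr; exact le_abs_self C
      _ ≤ |C| * (1 + ‖y‖) ^ m := by gcongr
  have h5 : (u' (x, y)).re ≤ (|C| * (1 + ‖y‖) ^ m) / (Int.gcd a b : ℝ) := by
    rw [le_div_iff₀ hgR]
    linarith
  calc (u' (x, y)).re ≤ (|C| * (1 + ‖y‖) ^ m) / (Int.gcd a b : ℝ) := h5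
    _ = |C| / (Int.gcd a b) * (1 + ‖y‖) ^ m := by ring

end Pool.Agent.Results.MP_090e3f_an.FiniteOrder
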